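import Pool.Agent.Helper96.ME.Defs

/-! MP_bde085_nt, block E, module OPH: the operators `hh` commute with Hecke operators -/

set_option autoImplicit false

namespace Pool.Agent.Helper96.ME

open Pool.Agent.Helper96.MP
open scoped MatrixGroups

/-! ### the set `T_n` -/

theorem oph_mem {n : ℕ} (hn : 1 ≤ n) (t : ℕ × ℕ × ℕ) :
    t ∈ Tn n ↔ t.1 * t.2.2 = n ∧ t.2.1 < t.2.2 := by
  unfold Tn
  rw [Finset.mem_filter]
  constructor
  · exact fun h => h.2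
  · intro h
    refine ⟨?_, h⟩
    have h1 : 1 ≤ t.1 := by
      rcases Nat.eq_zero_or_pos t.1 with h0 | h0
      · rw [h0] at h; omega
      · exact h0
    have h2 : 1 ≤ t.2.2 := by omega
    have h3 : t.1 ≤ n := by nlinarith [h.1]
    have h4 : t.2.2 ≤ n := by nlinarith [h.1]
    simp only [Finset.mem_product, Finset.mem_range]
    omega

/-- multiplication of the upper right entry by `M` -/
def oph_mu (M : ℕ) (t : ℕ × ℕ × ℕ) : ℕ × ℕ × ℕ := (t.1, (M * t.2.1) % t.2.2, t.2.2)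

theorem oph_mu_mem {M n : ℕ} (hn : 1 ≤ n) {t : ℕ × ℕ × ℕ} (ht : t ∈ Tn n) :
    oph_mu M t ∈ Tn n := by
  rw [oph_mem hn] at ht ⊢
  refine ⟨ht.1, ?_⟩
  exact Nat.mod_lt _ (by omega)

theorem oph_cop {M n : ℕ} (hn : 1 ≤ n) (hc : Nat.Coprime n M) {t : ℕ × ℕ × ℕ} (ht : t ∈ Tn n) :
    Nat.Coprime t.1 M ∧ Nat.Coprime t.2.2 M := by
  rw [oph_mem hn] at ht
  exact ⟨Nat.Coprime.coprime_dvd_left ⟨_, ht.1.symm⟩ hc,
    Nat.Coprime.coprime_dvd_left ⟨_, by rw [← ht.1, mul_comm]⟩ hc⟩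

/-- `oph_mu` as a permutation -/
theorem oph_mu_perm {M n : ℕ} (hn : 1 ≤ n) (hc : Nat.Coprime n M) :
    ∃ e : Equiv.Perm {t // t ∈ Tn n}, ∀ t, (e t).1 = oph_mu M t.1 := by
  have hinj : Function.Injective
      (fun t : {t // t ∈ Tn n} => (⟨oph_mu M t.1, oph_mu_mem hn t.2⟩ : {t // t ∈ Tn n})) := by
    rintro ⟨⟨a, b, d⟩, h1⟩ ⟨⟨a', b', d'⟩, h2⟩ h
    have h3 := oph_cop hn hc h1
    rw [oph_mem hn] at h1 h2
    simp only [oph_mu, Subtype.mk.injEq, Prod.mk.injEq] at h h1 h2 h3 ⊢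
    obtain ⟨ha, hb, hd⟩ := h
    subst ha; subst hd
    refine ⟨rfl, ?_, rfl⟩
    have h4 : M * b ≡ M * b' [MOD d] := hb
    have h5 : b ≡ b' [MOD d] := Nat.ModEq.cancel_left_of_coprime h3.2 h4
    have h6 : b % d = b' % d := h5
    rwa [Nat.mod_eq_of_lt h1.2, Nat.mod_eq_of_lt h2.2] at h6
  exact ⟨Equiv.ofBijective _ (Finite.injective_iff_bijective.1 hinj), fun t => rfl⟩

/-- `Γ₀(Q)` permutes the matrices `(a, M b; 0, d)` -/
theorem oph_perm (hP : ST_PERM) (M Q n : ℕ) (hQ : 1 ≤ Q) (hn : 1 ≤ n)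
    (hcM : Nat.Coprime n M) (hcQ : Nat.Coprime n Q) (γ : SL(2, ℤ)) (hγ : (Q : ℤ) ∣ γ 1 0) :
    ∃ (e : Equiv.Perm {t // t ∈ Tn n}) (δ : {t // t ∈ Tn n} → SL(2, ℤ)), ∀ t,
      (Q : ℤ) ∣ (δ t) 1 0 ∧
      (t.1.1 : ℤ) * γ 0 0 + M * t.1.2.1 * γ 1 0 = (δ t) 0 0 * (e t).1.1 ∧
      (t.1.1 : ℤ) * γ 0 1 + M * t.1.2.1 * γ 1 1 =
        (δ t) 0 0 * (M * (e t).1.2.1) + (δ t) 0 1 * (e t).1.2.2 ∧
      (t.1.2.2 : ℤ) * γ 1 0 = (δ t) 1 0 * (e t).1.1 ∧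
      (t.1.2.2 : ℤ) * γ 1 1 = (δ t) 1 0 * (M * (e t).1.2.1) + (δ t) 1 1 * (e t).1.2.2 := by
  obtain ⟨μ, hμ⟩ := oph_mu_perm hn hcM
  have hdet : γ 0 0 * γ 1 1 - γ 0 1 * γ 1 0 = 1 := by
    have := γ.2
    rwa [Matrix.det_fin_two] at this
  obtain ⟨e0, he0⟩ := hP Q n hQ hn hcQ (γ 0 0) (γ 0 1) (γ 1 0) (γ 1 1) ⟨hdet, hγ⟩
  refine ⟨(μ.trans e0).trans μ.symm, ?_⟩
  have key : ∀ t : {t // t ∈ Tn n}, ∃ δ : SL(2, ℤ), (Q : ℤ) ∣ δ 1 0 ∧
      (t.1.1 : ℤ) * γ 0 0 + M * t.1.2.1 * γ 1 0 =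
        δ 0 0 * (((μ.trans e0).trans μ.symm) t).1.1 ∧
      (t.1.1 : ℤ) * γ 0 1 + M * t.1.2.1 * γ 1 1 =
        δ 0 0 * (M * (((μ.trans e0).trans μ.symm) t).1.2.1) +
          δ 0 1 * (((μ.trans e0).trans μ.symm) t).1.2.2 ∧
      (t.1.2.2 : ℤ) * γ 1 0 = δ 1 0 * (((μ.trans e0).trans μ.symm) t).1.1 ∧
      (t.1.2.2 : ℤ) * γ 1 1 = δ 1 0 * (M * (((μ.trans e0).trans μ.symm) t).1.2.1) +
        δ 1 1 * (((μ.trans e0).trans μ.symm) t).1.2.2 := by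
    intro t
    set t2 := ((μ.trans e0).trans μ.symm) t with ht2
    have h1 : μ t2 = e0 (μ t) := by
      rw [ht2]; simp
    obtain ⟨p, q, r, s, ⟨hd, hQr⟩, i1, i2, i3, i4⟩ := he0 (μ t)
    rw [← h1, hμ, hμ] at i1 i2 i3 i4
    simp only [oph_mu] at i1 i2 i3 i4
    -- the quotients
    have k1 : ((M * t.1.2.1 : ℕ) : ℤ) = ((M * t.1.2.1) % t.1.2.2 : ℕ) +
        t.1.2.2 * ((M * t.1.2.1) / t.1.2.2 : ℕ) := by
      exact_mod_cast (Nat.mod_add_div (M * t.1.2.1) t.1.2.2).symm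
    have k2 : ((M * t2.1.2.1 : ℕ) : ℤ) = ((M * t2.1.2.1) % t2.1.2.2 : ℕ) +
        t2.1.2.2 * ((M * t2.1.2.1) / t2.1.2.2 : ℕ) := by
      exact_mod_cast (Nat.mod_add_div (M * t2.1.2.1) t2.1.2.2).symm
    generalize ((M * t.1.2.1) / t.1.2.2 : ℕ) = k at k1
    generalize ((M * t2.1.2.1) / t2.1.2.2 : ℕ) = k' at k2
    generalize ((M * t.1.2.1) % t.1.2.2 : ℕ) = m at k1 i1 i2
    generalize ((M * t2.1.2.1) % t2.1.2.2 : ℕ) = m' at k2 i2 i4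
    push_cast at k1 k2
    refine ⟨⟨!![p + k * r, q + k * s - (p + k * r) * k'; r, s - r * k'], ?_⟩, ?_⟩
    · rw [Matrix.det_fin_two_of]
      linear_combination hd
    · simp only [Matrix.of_apply, Matrix.cons_val', Matrix.cons_val_zero, Matrix.cons_val_one,
        Matrix.cons_val_fin_one]
      refine ⟨hQr, ?_, ?_, ?_, ?_⟩
      · linear_combination i1 + k * i3 + γ 1 0 * k1
      · linear_combination i2 + k * i4 + γ 1 1 * k1 - (p + k * r) * k2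
      · exact i3
      · linear_combination i4 - r * k2
  choose δ hδ using key
  exact ⟨δ, hδ⟩

/-! ### units and matrices modulo `M` -/

/-- the unit of a number prime to `M` -/
noncomputable def oph_U (M d : ℕ) : (ZMod M)ˣ := by
  classical
  exact if h : Nat.Coprime d M then ZMod.unitOfCoprime d h else 1

theorem oph_U_coe {M d : ℕ} (h : Nat.Coprime d M) : ((oph_U M d : (ZMod M)ˣ) : ZMod M) = d := by
  unfold oph_U
  rw [dif_pos h, ZMod.coe_unitOfCoprime]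

theorem oph_ext {R : Type} [CommRing R] {g h : SL(2, R)} (h00 : g 0 0 = h 0 0)
    (h01 : g 0 1 = h 0 1) (h10 : g 1 0 = h 1 0) (h11 : g 1 1 = h 1 1) : g = h := by
  apply Matrix.SpecialLinearGroup.ext
  intro i j
  fin_cases i <;> fin_cases j
  · exact h00
  · exact h01
  · exact h10
  · exact h11

theorem oph_mul {R : Type} [CommRing R] (g h : SL(2, R)) (i j : Fin 2) :
    (g * h) i j = g i 0 * h 0 j + g i 1 * h 1 j := by
  rw [Matrix.SpecialLinearGroup.coe_mul, Matrix.mul_apply, Fin.sum_univ_two]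

theorem oph_dg {R : Type} [CommRing R] (u : Rˣ) : (dg u) 0 0 = (u : R) ∧ (dg u) 0 1 = 0 ∧
    (dg u) 1 0 = 0 ∧ (dg u) 1 1 = ((u⁻¹ : Rˣ) : R) := by
  refine ⟨rfl, rfl, rfl, rfl⟩

theorem oph_sg {R : Type} [CommRing R] (u : Rˣ) (g : SL(2, R)) : (sg u g) 0 0 = g 0 0 ∧
    (sg u g) 0 1 = (u : R) * g 0 1 ∧ (sg u g) 1 0 = ((u⁻¹ : Rˣ) : R) * g 1 0 ∧
    (sg u g) 1 1 = g 1 1 := by
  refine ⟨rfl, rfl, rfl, rfl⟩

theorem oph_sg_inj {R : Type} [CommRing R] (u : Rˣ) : Function.Injective (sg (R := R) u) := by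
  intro g h e
  obtain ⟨a1, a2, a3, a4⟩ := oph_sg u g
  obtain ⟨b1, b2, b3, b4⟩ := oph_sg u h
  rw [e] at a1 a2 a3 a4
  apply oph_ext
  · rw [← a1, b1]
  · have : (u : R) * g 0 1 = (u : R) * h 0 1 := by rw [← a2, b2]
    exact u.isUnit.mul_left_cancel this
  · have : ((u⁻¹ : Rˣ) : R) * g 1 0 = ((u⁻¹ : Rˣ) : R) * h 1 0 := by rw [← a3, b3]
    exact (u⁻¹).isUnit.mul_left_cancel this
  · rw [← a4, b4]

theorem oph_rd (M : ℕ) (g : SL(2, ℤ)) (i j : Fin 2) : (rd M g) i j = ((g i j : ℤ) : ZMod M) := rfl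

/-- the class of `δ` modulo `M` -/
theorem oph_class {M n : ℕ} (hn : 1 ≤ n) (hc : Nat.Coprime n M) (γ δ : SL(2, ℤ))
    (t t2 : ℕ × ℕ × ℕ) (ht : t ∈ Tn n) (ht2 : t2 ∈ Tn n)
    (i1 : (t.1 : ℤ) * γ 0 0 + M * t.2.1 * γ 1 0 = δ 0 0 * t2.1)
    (i2 : (t.1 : ℤ) * γ 0 1 + M * t.2.1 * γ 1 1 = δ 0 0 * (M * t2.2.1) + δ 0 1 * t2.2.2)
    (i3 : (t.2.2 : ℤ) * γ 1 0 = δ 1 0 * t2.1)
    (i4 : (t.2.2 : ℤ) * γ 1 1 = δ 1 0 * (M * t2.2.1) + δ 1 1 * t2.2.2) :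
    rd M δ = dg (oph_U M t.2.2)⁻¹ * sg (oph_U M n) (rd M γ * dg (oph_U M t2.2.2)) := by
  obtain ⟨c1, c2⟩ := oph_cop hn hc ht
  obtain ⟨c3, c4⟩ := oph_cop hn hc ht2
  have m1 := ((oph_mem hn t).1 ht).1
  have m2 := ((oph_mem hn t2).1 ht2).1
  have n1 : (t.1 : ZMod M) * (t.2.2 : ZMod M) = (n : ZMod M) := by
    rw [← m1]; push_cast; ring
  have n2 : (t2.1 : ZMod M) * (t2.2.2 : ZMod M) = (n : ZMod M) := by
    rw [← m2]; push_cast; ring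
  have z : ((M : ℤ) : ZMod M) = 0 := by simp
  have j1 : (t.1 : ZMod M) * (γ 0 0 : ℤ) = ((δ 0 0 : ℤ) : ZMod M) * t2.1 := by
    have := congrArg (fun x : ℤ => (x : ZMod M)) i1
    push_cast at this
    simpa using this
  have j2 : (t.1 : ZMod M) * (γ 0 1 : ℤ) = ((δ 0 1 : ℤ) : ZMod M) * t2.2.2 := by
    have := congrArg (fun x : ℤ => (x : ZMod M)) i2
    push_cast at this
    simpa using this
  have j3 : (t.2.2 : ZMod M) * (γ 1 0 : ℤ) = ((δ 1 0 : ℤ) : ZMod M) * t2.1 := by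
    have := congrArg (fun x : ℤ => (x : ZMod M)) i3
    push_cast at this
    simpa using this
  have j4 : (t.2.2 : ZMod M) * (γ 1 1 : ℤ) = ((δ 1 1 : ℤ) : ZMod M) * t2.2.2 := by
    have := congrArg (fun x : ℤ => (x : ZMod M)) i4
    push_cast at this
    simpa using this
  set us := oph_U M t.2.2 with hus
  set ut := oph_U M t2.2.2 with hut
  set un' := oph_U M n with hun
  have vs : (us : ZMod M) = t.2.2 := oph_U_coe c2
  have vt : (ut : ZMod M) = t2.2.2 := oph_U_coe c4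
  have vn : (un' : ZMod M) = n := oph_U_coe hc
  have vs' : (us : ZMod M) * ((us⁻¹ : (ZMod M)ˣ) : ZMod M) = 1 := us.mul_inv
  have vt' : (ut : ZMod M) * ((ut⁻¹ : (ZMod M)ˣ) : ZMod M) = 1 := ut.mul_inv
  have vn' : (un' : ZMod M) * ((un'⁻¹ : (ZMod M)ˣ) : ZMod M) = 1 := un'.mul_inv
  rw [← vs] at n1 j3 j4
  rw [← vt] at n2 j2 j4
  rw [← vn] at n1 n2
  obtain ⟨d1, d2, d3, d4⟩ := oph_dg (us⁻¹)
  obtain ⟨e1, e2, e3, e4⟩ := oph_dg ut
  obtain ⟨s1, s2, s3, s4⟩ := oph_sg un' (rd M γ * dg ut)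
  rw [inv_inv] at d4
  have g00 : (rd M γ * dg ut) 0 0 = ((γ 0 0 : ℤ) : ZMod M) * ut := by
    rw [oph_mul, e1, e3, oph_rd]; ring
  have g01 : (rd M γ * dg ut) 0 1 = ((γ 0 1 : ℤ) : ZMod M) * ((ut⁻¹ : (ZMod M)ˣ) : ZMod M) := by
    rw [oph_mul, e2, e4, oph_rd, oph_rd]; ring
  have g10 : (rd M γ * dg ut) 1 0 = ((γ 1 0 : ℤ) : ZMod M) * ut := by
    rw [oph_mul, e1, e3, oph_rd]; ring
  have g11 : (rd M γ * dg ut) 1 1 = ((γ 1 1 : ℤ) : ZMod M) * ((ut⁻¹ : (ZMod M)ˣ) : ZMod M) := by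
    rw [oph_mul, e2, e4, oph_rd, oph_rd]; ring
  -- cancellation of units
  have canc : ∀ (w : (ZMod M)ˣ) (x y : ZMod M), (w : ZMod M) * x = w * y → x = y :=
    fun w x y h => w.isUnit.mul_left_cancel h
  apply oph_ext
  · rw [oph_rd, oph_mul, d1, d2, s1, g00]
    apply canc us; apply canc un'
    linear_combination (-(us : ZMod M) * ut) * j1 +
      ((δ 0 0 : ℤ) : ZMod M) * us * n2.symm + ((γ 0 0 : ℤ) : ZMod M) * ut * n1 -
      un' * ((γ 0 0 : ℤ) : ZMod M) * ut * vs'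
  · rw [oph_rd, oph_mul, d1, d2, s2, g01]
    apply canc us; apply canc ut
    linear_combination (-(us : ZMod M)) * j2 + ((γ 0 1 : ℤ) : ZMod M) * n1 -
      un' * ((γ 0 1 : ℤ) : ZMod M) * vt' * (us * ((us⁻¹ : (ZMod M)ˣ) : ZMod M)) -
      un' * ((γ 0 1 : ℤ) : ZMod M) * vs'
  · rw [oph_rd, oph_mul, d3, d4, s3, g10]
    apply canc un'
    linear_combination (-(ut : ZMod M)) * j3 + ((δ 1 0 : ℤ) : ZMod M) * n2.symm -
      us * ((γ 1 0 : ℤ) : ZMod M) * ut * vn'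
  · rw [oph_rd, oph_mul, d3, d4, s4, g11]
    apply canc ut
    linear_combination (-1 : ZMod M) * j4 - us * ((γ 1 1 : ℤ) : ZMod M) * vt'

/-! ### one matrix -/

theorem oph_one (hCA : ST_CAI) (hLF : ST_LFT) (hP : ST_PERM) (M Q n : ℕ) (α : ℝ)
    (C : ℤ → ℤ → ℝ) (hM : 1 ≤ M) (hQ : 1 ≤ Q) (hQM : Nat.Coprime Q M) (hn : 1 ≤ n)
    (hcM : Nat.Coprime n M) (hcQ : Nat.Coprime n Q) (hH : Hom0 C) (hE : EqC (Q * M ^ 2) C)
    (hC : HC n α C) (g : SL(2, ZMod M)) : ∃ c : ℝ, ∀ x y : ℤ, (x ≠ 0 ∨ y ≠ 0) →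
      α * ca M C (lf M Q g) x y = ∑ t ∈ Tn n, ca M C (lf M Q (sg (oph_U M n)
        (g * dg (oph_U M t.2.2)))) (t.1 * x + t.2.1 * y) (t.2.2 * y) + c := by
  classical
  obtain ⟨hL1, -⟩ := hLF M Q hM hQ hQM
  obtain ⟨-, -, hCA3⟩ := hCA M Q C hM hQ hQM hH
  obtain ⟨hCA4, -⟩ := hCA3 hE
  obtain ⟨hγQ, hγg⟩ := hL1 g
  set γ := lf M Q g with hγ
  obtain ⟨e, δ, hδ⟩ := oph_perm hP M Q n hQ hn hcM hcQ γ hγQ
  obtain ⟨κ0, hκ0⟩ := hC
  -- constants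
  have hc : ∀ t : {t // t ∈ Tn n}, ∃ κ : ℝ, ∀ x y : ℤ, (x ≠ 0 ∨ y ≠ 0) →
      ca M C (δ t) x y =
        ca M C (lf M Q (sg (oph_U M n) (g * dg (oph_U M (e t).1.2.2)))) x y + κ := by
    intro t
    obtain ⟨h1, h2, h3, h4, h5⟩ := hδ t
    have h6 := hL1 (sg (oph_U M n) (g * dg (oph_U M (e t).1.2.2)))
    apply hCA4 _ _ h6.1 h1
    refine ⟨(oph_U M t.1.2.2)⁻¹, ?_⟩
    rw [h6.2]
    have := oph_class hn hcM γ (δ t) t.1 (e t).1 t.2 (e t).2 h2 h3 h4 h5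
    rw [this, hγg]
  choose κ1 hκ1 using hc
  refine ⟨∑ t, κ1 t - κ0, ?_⟩
  intro x y hxy
  have hdet : γ 0 0 * γ 1 1 - γ 0 1 * γ 1 0 = 1 := by
    have := γ.2
    rwa [Matrix.det_fin_two] at this
  have hM0 : (M : ℤ) ≠ 0 := by exact_mod_cast (by omega : M ≠ 0)
  have hne : (M * γ 0 0 * x + γ 0 1 * y ≠ 0 ∨ (M : ℤ) ^ 2 * γ 1 0 * x + M * γ 1 1 * y ≠ 0) := by
    by_contra hcon
    push Not at hcon
    obtain ⟨u1, u2⟩ := hcon
    have u3 : (M : ℤ) * γ 1 0 * x + γ 1 1 * y = 0 := by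
      have : (M : ℤ) * ((M : ℤ) * γ 1 0 * x + γ 1 1 * y) = 0 := by linear_combination u2
      rcases mul_eq_zero.1 this with h | h
      · exact absurd h hM0
      · exact h
    have u4 : (M : ℤ) * x = 0 := by
      linear_combination γ 1 1 * u1 - γ 0 1 * u3 - M * x * hdet
    have u5 : y = 0 := by
      linear_combination γ 0 0 * u3 - γ 1 0 * u1 - y * hdet
    have u6 : x = 0 := by
      rcases mul_eq_zero.1 u4 with h | h
      · exact absurd h hM0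
      · exact h
    rcases hxy with h | h
    · exact h u6
    · exact h u5
  have h1 := hκ0 _ _ hne
  have h2 : α * ca M C γ x y = ∑ t ∈ Tn n, C (t.1 * (M * γ 0 0 * x + γ 0 1 * y) +
      t.2.1 * ((M : ℤ) ^ 2 * γ 1 0 * x + M * γ 1 1 * y))
      (t.2.2 * ((M : ℤ) ^ 2 * γ 1 0 * x + M * γ 1 1 * y)) - κ0 := by
    rw [h1]; unfold ca; ring
  rw [h2, ← Finset.sum_coe_sort (Tn n), ← Finset.sum_coe_sort (Tn n)]
  have h3 : ∀ t : {t // t ∈ Tn n}, C (t.1.1 * (M * γ 0 0 * x + γ 0 1 * y) +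
      t.1.2.1 * ((M : ℤ) ^ 2 * γ 1 0 * x + M * γ 1 1 * y))
      (t.1.2.2 * ((M : ℤ) ^ 2 * γ 1 0 * x + M * γ 1 1 * y)) =
      ca M C (lf M Q (sg (oph_U M n) (g * dg (oph_U M (e t).1.2.2))))
        ((e t).1.1 * x + (e t).1.2.1 * y) ((e t).1.2.2 * y) + κ1 t := by
    intro t
    obtain ⟨i0, i1, i2, i3, i4⟩ := hδ t
    have m1 := (oph_mem hn _).1 (e t).2
    have hne2 : (((e t).1.1 : ℤ) * x + (e t).1.2.1 * y ≠ 0 ∨ ((e t).1.2.2 : ℤ) * y ≠ 0) := by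
      have hd : ((e t).1.2.2 : ℤ) ≠ 0 := by
        exact_mod_cast (by omega : (e t).1.2.2 ≠ 0)
      have ha : ((e t).1.1 : ℤ) ≠ 0 := by
        have : (e t).1.1 ≠ 0 := by
          intro h0
          rw [h0] at m1; omega
        exact_mod_cast this
      by_cases hy : y = 0
      · left
        rw [hy, mul_zero, add_zero]
        rcases hxy with h | h
        · exact mul_ne_zero ha h
        · exact absurd hy h
      · right; exact mul_ne_zero hd hy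
    rw [← hκ1 t _ _ hne2]
    unfold ca
    congr 1
    · linear_combination (M * x) * i1 + y * i2
    · linear_combination (M * (M * x)) * i3 + (M * y) * i4
  rw [Finset.sum_congr rfl (fun t _ => h3 t), Finset.sum_add_distrib]
  have h4 := Equiv.sum_comp e (fun t : {t // t ∈ Tn n} =>
    ca M C (lf M Q (sg (oph_U M n) (g * dg (oph_U M t.1.2.2))))
        (t.1.1 * x + t.1.2.1 * y) (t.1.2.2 * y))
  rw [h4]
  ring

theorem st_OPH (hCA : ST_CAI) (hLF : ST_LFT) (hP : ST_PERM) : ST_OPH := by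
  intro M Q n α C κ hM hQ hQM hn hc hκ1 hκ2 hH hE hC
  classical
  have hcM : Nat.Coprime n M := by
    have : Nat.Coprime n (M ^ 2) := Nat.Coprime.coprime_mul_left_right hc
    exact Nat.Coprime.coprime_dvd_right (dvd_pow_self M two_ne_zero) this
  have hcQ : Nat.Coprime n Q := Nat.Coprime.coprime_mul_right_right hc
  have : NeZero M := ⟨by omega⟩
  have : Finite SL(2, ZMod M) := Subtype.finite
  have : Fintype SL(2, ZMod M) := Fintype.ofFinite _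
  have hone := oph_one hCA hLF hP M Q n α C hM hQ hQM hn hcM hcQ hH hE hC
  choose c hcc using hone
  refine ⟨-∑ g, κ g * c g, ?_⟩
  intro x y hxy
  have hhs : ∀ X Y : ℤ, hh M Q κ C X Y = ∑ g, κ g * ca M C (lf M Q g) X Y := by
    intro X Y
    unfold hh
    rw [finsum_eq_sum_of_fintype]
  -- reindexing
  have hre : ∀ (u : (ZMod M)ˣ) (X Y : ℤ), ∑ g, κ g * ca M C (lf M Q (sg (oph_U M n) (g * dg u))) X Y =
      hh M Q κ C X Y := by
    intro u X Y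
    rw [hhs]
    have hb : Function.Bijective (fun g : SL(2, ZMod M) => sg (oph_U M n) (g * dg u)) := by
      apply Finite.injective_iff_bijective.1
      intro g h e
      exact mul_right_cancel (oph_sg_inj _ e)
    rw [← hb.sum_comp (fun g => κ g * ca M C (lf M Q g) X Y)]
    apply Finset.sum_congr rfl
    intro g _
    simp only [hκ2, hκ1]
  have h1 : α * hh M Q κ C x y = ∑ t ∈ Tn n, hh M Q κ C (t.1 * x + t.2.1 * y) (t.2.2 * y) +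
      ∑ g, κ g * c g := by
    rw [hhs, Finset.mul_sum]
    have h2 : ∀ g : SL(2, ZMod M), α * (κ g * ca M C (lf M Q g) x y) =
        ∑ t ∈ Tn n, κ g * ca M C (lf M Q (sg (oph_U M n) (g * dg (oph_U M t.2.2))))
          (t.1 * x + t.2.1 * y) (t.2.2 * y) + κ g * c g := by
      intro g
      have := hcc g x y hxy
      rw [← Finset.mul_sum, ← mul_add, ← this]
      ring
    rw [Finset.sum_congr rfl (fun g _ => h2 g), Finset.sum_add_distrib, Finset.sum_comm]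
    congr 1
    apply Finset.sum_congr rfl
    intro t _
    exact hre _ _ _
  rw [h1]
  ring

end Pool.Agent.Helper96.ME
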